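import Pool.Agent.H84.FL.Main2

/-!
Flat ternary pseudocyclotomic polynomials: the case `r ≡ ± 1 (mod q)`.

Let `p < q < r` be pairwise coprime, `s = 1` or `s = -1`, `r ≡ s (mod q)`. If the ternary pseudocyclotomic
polynomial of `p, q, r` is flat, then `r ≡ s (mod p q)`.

Proof. Put `r = s + c q` and suppose that `p` does not divide `c`. If `c` is prime to `p`, some coefficients are
the coefficients of `(1 - z) (1 - z ^ c) * sum_(x + y < k) z ^ (x + s r y)` modulo `z ^ p - 1`; the values of
the first difference are governed by the multiples of two residues modulo `p`, and a discrete intermediate value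
argument gives a jump of size two. If `c` and `p` have a common divisor `d ≥ 2`, one more point of the
hypotenuse `x + y = k` is counted, and the same intermediate value argument applies to the new coefficients.
-/

set_option autoImplicit false

namespace Pool.Agent.Results.MP_fd220b_nt.PlusMinusOneModQ

open Polynomial

/-- `F` is the ternary pseudocyclotomic (inclusion-exclusion) polynomial of `p, q, r`:
`F = (x ^ (p q r) - 1) (x ^ p - 1) (x ^ q - 1) (x ^ r - 1) /
((x ^ (p q) - 1) (x ^ (p r) - 1) (x ^ (q r) - 1) (x - 1))` -/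
def IsPseudocyclotomic (p q r : ℕ) (F : ℤ[X]) : Prop :=
  F * ((X ^ (p * q) - 1) * (X ^ (p * r) - 1) * (X ^ (q * r) - 1) * (X - 1)) =
    (X ^ (p * q * r) - 1) * (X ^ p - 1) * (X ^ q - 1) * (X ^ r - 1)

/-- every coefficient lies in `{-1, 0, 1}` -/
def Flat (F : ℤ[X]) : Prop := ∀ n : ℕ, F.coeff n = -1 ∨ F.coeff n = 0 ∨ F.coeff n = 1

/-- Let `0 < p < q < r` be pairwise coprime, `s = ± 1`, `r ≡ s (mod q)`. If the ternary pseudocyclotomic
polynomial of `p, q, r` is flat, then `r ≡ s (mod p q)`. -/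
theorem result : ∀ p q r : ℕ, 0 < p → p < q → q < r → p.Coprime q → p.Coprime r → q.Coprime r →
    ∀ s : ℤ, s = 1 ∨ s = -1 → (r : ℤ) ≡ s [ZMOD q] →
      ∀ F : ℤ[X], IsPseudocyclotomic p q r F → Flat F → (r : ℤ) ≡ s [ZMOD (p * q)] := by
  intro p q r hp hpq hqr h1 h2 h3 s hs hrq F hF hflat
  have hqp : IsCoprime (q : ℤ) (p : ℤ) := by exact_mod_cast h1.symm.isCoprime
  have hpq' : IsCoprime (p : ℤ) (q : ℤ) := hqp.symm
  have hrp' : IsCoprime (r : ℤ) (p : ℤ) := by exact_mod_cast h2.symm.isCoprime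
  -- if `r ≡ s (mod p)` we are done
  by_cases hcase : (r : ℤ) ≡ s [ZMOD p]
  · rw [Int.modEq_iff_dvd] at hcase hrq ⊢
    exact hpq'.mul_dvd hcase hrq
  exfalso
  have hp2 : 2 ≤ p := by
    by_contra hcon
    have hp1 : p = 1 := by omega
    apply hcase
    rw [hp1, Int.modEq_iff_dvd]
    simp
  have hbad : ∃ n : ℕ, 2 ≤ |F.coeff n| := by
    rw [Int.modEq_iff_dvd] at hrq
    obtain ⟨c, hc⟩ := hrq
    -- `r = s - q c`
    by_cases hr1 : r = q + 1
    · subst hr1
      refine ⟨q + 1, ?_⟩
      rw [Pool.Agent.H84.FL.case_succ hp2 hpq hF]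
      norm_num
    have hqr' : (q : ℤ) < r := by exact_mod_cast hqr
    have hq0 : (0 : ℤ) < q := by exact_mod_cast (by omega : 0 < q)
    -- `p` does not divide `c`
    have hpc : ¬ (p : ℤ) ∣ -c := by
      intro h
      apply hcase
      rw [Int.modEq_iff_dvd, hc]
      exact dvd_mul_of_dvd_right ((dvd_neg).1 h) _
    -- a common divisor
    have hgcd : IsCoprime (-c) (p : ℤ) ∨ ∃ d : ℤ, 2 ≤ d ∧ d ∣ (p : ℤ) ∧ d ∣ -c := by
      by_cases h : Int.gcd (-c) p = 1
      · exact Or.inl (Int.isCoprime_iff_gcd_eq_one.2 h)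
      · refine Or.inr ⟨(Int.gcd (-c) p : ℕ), ?_, Int.gcd_dvd_right _ _, Int.gcd_dvd_left _ _⟩
        have h5 : Int.gcd (-c) p ≠ 0 := by
          intro h6
          have := (Int.gcd_eq_zero_iff.1 h6).2
          omega
        have h7 : 2 ≤ Int.gcd (-c) p := by omega
        exact_mod_cast h7
    rcases hs with rfl | rfl
    · -- `r = 1 + (-c) q`
      have e1 : (r : ℤ) = 1 + (-c) * q := by linarith
      have hpq3 : p + q ≤ r := by
        -- `-c ≥ 2` as `r > q` and `r ≠ q + 1`
        have hc2 : 2 ≤ -c := by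
          by_contra hcon
          push Not at hcon
          have h5 : -c = 1 ∨ -c ≤ 0 := by omega
          rcases h5 with h5 | h5
          · rw [h5] at e1
            apply hr1
            have : (r : ℤ) = ((q + 1 : ℕ) : ℤ) := by push_cast; linarith
            exact_mod_cast this
          · have : (-c) * (q : ℤ) ≤ 0 := mul_nonpos_of_nonpos_of_nonneg h5 hq0.le
            linarith
        have h6 : 2 * (q : ℤ) ≤ (-c) * q := mul_le_mul_of_nonneg_right hc2 hq0.le
        have h7 : (p : ℤ) < q := by exact_mod_cast hpq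
        have h8 : (p : ℤ) + q ≤ r := by linarith
        exact_mod_cast h8
      rcases hgcd with hcp | ⟨d, hd, hdp, hdc⟩
      · exact Pool.Agent.H84.FL.case_one hp2 hpq hpq3 e1 hqp hcp hrp' hF
      · exact Pool.Agent.H84.FL.case_one2 hp2 hpq hpq3 e1 hqp hpc hd hdp hdc hrp' hF
    · -- `r = (-c) q - 1`
      have e1 : (r : ℤ) = (-c) * q - 1 := by linarith
      have hpq3 : p + q ≤ r := by
        have hc2 : 2 ≤ -c := by
          by_contra hcon
          push Not at hcon
          have h5 : -c ≤ 1 := by omega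
          have : (-c) * (q : ℤ) ≤ 1 * q := mul_le_mul_of_nonneg_right h5 hq0.le
          linarith
        have h6 : 2 * (q : ℤ) ≤ (-c) * q := mul_le_mul_of_nonneg_right hc2 hq0.le
        have h7 : (p : ℤ) < q := by exact_mod_cast hpq
        have h8 : (p : ℤ) + q ≤ r := by linarith
        exact_mod_cast h8
      rcases hgcd with hcp | ⟨d, hd, hdp, hdc⟩
      · exact Pool.Agent.H84.FL.case_neg hp2 hpq hpq3 e1 hqp hcp hrp' hF
      · exact Pool.Agent.H84.FL.case_neg2 hp2 hpq hpq3 e1 hqp hpc hd hdp hdc hrp' hF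
  obtain ⟨n, hn⟩ := hbad
  rcases hflat n with h | h | h <;> rw [h] at hn <;> norm_num at hn

end Pool.Agent.Results.MP_fd220b_nt.PlusMinusOneModQ
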