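import Pool.Agent.H89.TL.Main2

/-!
Flat ternary pseudocyclotomic polynomials: `r` with a small inverse `s` modulo `q`.

Let `0 < p < q < r` be pairwise coprime, `s r = 1 + t q` with integers `s`, `t` and `|s| (p - 1) + p ≤ q`, and let the
ternary pseudocyclotomic polynomial of `p, q, r` be flat. Then `s` and `t` are not both prime to `p`; if `p` divides
`s` or if `p` divides `t` and `|s| ≥ 2` then `q ≡ ± 1 (mod p)`. So for prime `p` one of the congruences
`q ≡ ± 1 (mod p)`, `r ≡ ± 1 (mod p q)` holds.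

Proof. Partial sums of the coefficients are sums over the `p` residues `j - w e (mod p q)`, `w` the inverse of `r`.
`s`, `t` prime to `p`: at the ends of the rows of length `q` they are `N₁ x₁ + N₂ x₂ + N₃ x₃ - K` with
three functions on `ℤ / p` and `(x₁, x₂, x₃)` on a plane `d₁ x₁ + d₂ x₂ + d₃ x₃ = 0`, `d₁ + d₂ + d₃ = 0`. The differences
of the functions are differences of two progressions. If all values on the plane are `-1`, `0` or `1`, then the
progressions do not cross, the functions are, up to a constant, the indicator functions of two parallelograms and of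
their union, and the sum of the elements of a triangle in a third direction gives a contradiction.
`p ∣ s`: sums cut off inside a row. `p ∣ t`: the inverse of `r` modulo `p q` is small.
-/

set_option autoImplicit false

namespace Pool.Agent.Results.MP_fd220b_nt.SmallInverseModQ

open Polynomial

/-- `F` is the ternary pseudocyclotomic (inclusion-exclusion) polynomial of `p, q, r`:
`F = (x ^ (p q r) - 1) (x ^ p - 1) (x ^ q - 1) (x ^ r - 1) /
((x ^ (p q) - 1) (x ^ (p r) - 1) (x ^ (q r) - 1) (x - 1))` -/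
def IsPseudocyclotomic (p q r : ℕ) (F : ℤ[X]) : Prop :=
  F * ((X ^ (p * q) - 1) * (X ^ (p * r) - 1) * (X ^ (q * r) - 1) * (X - 1)) =
    (X ^ (p * q * r) - 1) * (X ^ p - 1) * (X ^ q - 1) * (X ^ r - 1)

/-- every coefficient lies in `{-1, 0, 1}` -/
def Flat (F : ℤ[X]) : Prop := ∀ n : ℕ, F.coeff n = -1 ∨ F.coeff n = 0 ∨ F.coeff n = 1

theorem not_flat {F : ℤ[X]} (hflat : Flat F) (h : ∃ n : ℕ, 2 ≤ |F.coeff n|) : False := by
  obtain ⟨n, hn⟩ := h
  rcases hflat n with h | h | h <;> rw [h] at hn <;> norm_num at hn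

theorem modEq_of_mod {q p a : ℕ} {b : ℤ} (h : q % p = a) (hab : (a : ℤ) ≡ b [ZMOD p]) : (q : ℤ) ≡ b [ZMOD p] := by
  refine Int.ModEq.trans ?_ hab
  rw [← h]
  push_cast
  exact (Int.mod_modEq _ _).symm

theorem mod_of_modEq {q p a : ℕ} {b : ℤ} (h : (q : ℤ) ≡ b [ZMOD p]) (hab : b ≡ (a : ℤ) [ZMOD p]) (ha : a < p) :
    q % p = a := by
  have h2 : q ≡ a [MOD p] := (Int.natCast_modEq_iff).1 (h.trans hab)
  unfold Nat.ModEq at h2
  rwa [Nat.mod_eq_of_lt ha] at h2

theorem sub_modEq {p : ℕ} (hp : 1 < p) : ((p - 1 : ℕ) : ℤ) ≡ -1 [ZMOD p] := by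
  rw [Nat.cast_sub hp.le, Int.modEq_iff_dvd]
  exact ⟨-1, by push_cast; ring⟩

/-- Let `0 < p < q < r` be pairwise coprime, `s r = 1 + t q`, `|s| (p - 1) + p ≤ q`, and let the ternary
pseudocyclotomic polynomial of `p, q, r` be flat. (1) `s` and `t` are not both prime to `p` (if `p > 1`). (2) If `p`
divides `s` then `q ≡ ± 1 (mod p)`. (3) If `p` divides `t` and `|s| ≥ 2` then `q ≡ ± 1 (mod p)`, more precisely
`q ≡ - 1` if `|s| ≡ 1`, and `q ≡ 1` if `|s| ≡ - 1`. (4) If `p` is prime then `q ≡ ± 1 (mod p)` or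
`r ≡ ± 1 (mod p q)`. -/
theorem result : ∀ (p q r : ℕ) (s t : ℤ), 0 < p → p < q → q < r → p.Coprime q → p.Coprime r → q.Coprime r →
    s * r = 1 + t * q → |s| * (p - 1) + p ≤ q →
    ∀ F : ℤ[X], IsPseudocyclotomic p q r F → Flat F →
      (1 < p → ¬ (IsCoprime s (p : ℤ) ∧ IsCoprime t (p : ℤ))) ∧
      ((p : ℤ) ∣ s → (q : ℤ) ≡ 1 [ZMOD p] ∨ (q : ℤ) ≡ -1 [ZMOD p]) ∧
      ((p : ℤ) ∣ t → 2 ≤ |s| → ((q : ℤ) ≡ 1 [ZMOD p] ∨ (q : ℤ) ≡ -1 [ZMOD p]) ∧
        (|s| ≡ 1 [ZMOD p] → (q : ℤ) ≡ -1 [ZMOD p]) ∧ (|s| ≡ -1 [ZMOD p] → (q : ℤ) ≡ 1 [ZMOD p])) ∧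
      (p.Prime → ((q : ℤ) ≡ 1 [ZMOD p] ∨ (q : ℤ) ≡ -1 [ZMOD p]) ∨
        ((r : ℤ) ≡ 1 [ZMOD (p * q)] ∨ (r : ℤ) ≡ -1 [ZMOD (p * q)])) := by
  intro p q r s t hp hpq hqr c1 c2 c3 hs hsq F hF hflat
  rcases Nat.lt_or_ge 1 p with hp1 | hp1
  swap
  · have e : p = 1 := by omega
    have all : ∀ a b : ℤ, a ≡ b [ZMOD p] := by
      intro a b
      rw [e, Int.modEq_iff_dvd]
      simp
    exact ⟨fun h => absurd h (by omega), fun _ => Or.inl (all _ _),
      fun _ _ => ⟨Or.inl (all _ _), fun _ => all _ _, fun _ => all _ _⟩, fun _ => Or.inl (Or.inl (all _ _))⟩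
  have hp1Z : (1 : ℤ) < p := by exact_mod_cast hp1
  have part1 : ¬ (IsCoprime s (p : ℤ) ∧ IsCoprime t (p : ℤ)) := fun h =>
    not_flat hflat (Pool.Agent.H89.TL.coeff_modq hp1 hpq hqr c1 c2 hs h.1 h.2 hsq hF)
  have hq0 : q % p ≠ 0 := by
    intro h
    have h2 : p ∣ q := Nat.dvd_of_mod_eq_zero h
    have h3 : Nat.gcd p q = p := Nat.gcd_eq_left h2
    have h4 : Nat.gcd p q = 1 := c1
    omega
  have hqp : q % p < p := Nat.mod_lt _ (by omega)
  have part2 : (p : ℤ) ∣ s → (q : ℤ) ≡ 1 [ZMOD p] ∨ (q : ℤ) ≡ -1 [ZMOD p] := by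
    intro hps
    by_cases h1 : q % p = 1
    · exact Or.inl (modEq_of_mod h1 (by simp))
    · by_cases h2 : q % p = p - 1
      · exact Or.inr (modEq_of_mod h2 (sub_modEq hp1))
      · exfalso
        exact not_flat hflat (Pool.Agent.H89.TL.coeff_ps hp1 hpq hqr c1 c2 hs hps (by linarith) hF (by omega) (by omega))
  have part3 : (p : ℤ) ∣ t → 2 ≤ |s| → ((q : ℤ) ≡ 1 [ZMOD p] ∨ (q : ℤ) ≡ -1 [ZMOD p]) ∧
        (|s| ≡ 1 [ZMOD p] → (q : ℤ) ≡ -1 [ZMOD p]) ∧ (|s| ≡ -1 [ZMOD p] → (q : ℤ) ≡ 1 [ZMOD p]) := by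
    rintro ⟨u, hu⟩ hs2
    obtain ⟨k, hk⟩ := Int.eq_ofNat_of_zero_le (abs_nonneg s)
    rw [hk] at hs2 hsq ⊢
    have hk2 : 2 ≤ k := by exact_mod_cast hs2
    have hp1N : ((p - 1 : ℕ) : ℤ) = p - 1 := by
      rw [Nat.cast_sub (by omega)]
      simp
    have hkq : (k + 1) * (p - 1) < q := by
      have h3 : ((k : ℤ) + 1) * ((p - 1 : ℕ) : ℤ) < q := by
        rw [hp1N]
        linarith
      exact_mod_cast h3
    have hkr : (k : ℤ) * r ≡ 1 [ZMOD (p * q)] ∨ (k : ℤ) * r ≡ -1 [ZMOD (p * q)] := by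
      rcases abs_choice s with h | h
      · left
        rw [← hk, h, Int.modEq_iff_dvd]
        exact ⟨-u, by rw [hs, hu]; ring⟩
      · right
        rw [← hk, h, Int.modEq_iff_dvd]
        exact ⟨u, by linear_combination hs + q * hu⟩
    by_cases hcond : (q % p = 1 ∨ q % p = p - 1) ∧ (k % p = 1 → q % p = p - 1) ∧ (k % p = p - 1 → q % p = 1)
    · obtain ⟨h1, h2, h3⟩ := hcond
      refine ⟨?_, ?_, ?_⟩
      · rcases h1 with h1 | h1
        · exact Or.inl (modEq_of_mod h1 (by simp))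
        · exact Or.inr (modEq_of_mod h1 (sub_modEq hp1))
      · intro h
        exact modEq_of_mod (h2 (mod_of_modEq h (by simp) hp1)) (sub_modEq hp1)
      · intro h
        exact modEq_of_mod (h3 (mod_of_modEq h (sub_modEq hp1).symm (by omega))) (by simp)
    · exfalso
      exact not_flat hflat (Pool.Agent.H89.FP.coeff_small hp1 hpq hqr c1 hk2 hkq hkr hF hcond)
  refine ⟨fun _ => part1, part2, part3, fun hpp => ?_⟩
  have hprime : ∀ x : ℤ, ¬ (p : ℤ) ∣ x → IsCoprime x (p : ℤ) := fun x hx =>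
    ((Nat.prime_iff_prime_int.1 hpp).coprime_iff_not_dvd.2 hx).symm
  by_cases h1 : (p : ℤ) ∣ s
  · exact Or.inl (part2 h1)
  · by_cases h2 : (p : ℤ) ∣ t
    · by_cases h3 : 2 ≤ |s|
      · exact Or.inl (part3 h2 h3).1
      · right
        obtain ⟨u, hu⟩ := h2
        have h4 : |s| = 1 := by
          have h5 : |s| ≠ 0 := by
            intro h
            rw [abs_eq_zero] at h
            exact h1 (by rw [h]; exact dvd_zero _)
          have h6 := abs_nonneg s
          omega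
        rcases (abs_eq (by norm_num : (0 : ℤ) ≤ 1)).1 h4 with h5 | h5
        · left
          rw [h5] at hs
          rw [Int.modEq_iff_dvd]
          exact ⟨-u, by linear_combination -hs - q * hu⟩
        · right
          rw [h5] at hs
          rw [Int.modEq_iff_dvd]
          exact ⟨u, by linear_combination hs + q * hu⟩
    · exact absurd ⟨hprime s h1, hprime t h2⟩ part1

end Pool.Agent.Results.MP_fd220b_nt.SmallInverseModQ
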