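import Pool.Agent.H89.FP.Final
import Pool.Agent.H89.FP.EE

/-!
Flat ternary pseudocyclotomic polynomials: all triples whose smallest parameter is at most `13`.

Let `0 < p < q < r` be pairwise coprime and `p ≤ 13`. If the ternary pseudocyclotomic polynomial of `p, q, r` is
flat, then `q ≡ ± 1 (mod p)` or `r ≡ ± 1 (mod p q)`. There is no bound on `q` and `r`.

Proof. Let `w` be the inverse of `r` modulo `p q`, `w = w₀ + c q` with `0 ≤ w₀ < q`. The coefficients are sums over
the `p` residues `j - w e (mod p q)`, `0 ≤ e < p`, cut off at a time `T`; they only depend on the order of the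
`p + 1` residues modulo `q`, on these residues modulo `p` and on the rows. If `a / b < w₀ / q < a' / b'` are
adjacent Farey fractions of order `p - 1`, then `q = b' A + b B` and `w₀ = a' A + a B` with `A, B ≥ 1`, and reducing
`A` and `B` modulo `p` to the range `1, ..., p` preserves a coefficient of absolute value at least `2` (lifting lemma).
So for every `p` finitely many cases remain, and these are checked with certificates.
-/

set_option autoImplicit false

namespace Pool.Agent.Results.MP_fd220b_nt.SmallP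

open Polynomial

/-- `F` is the ternary pseudocyclotomic (inclusion-exclusion) polynomial of `p, q, r`:
`F = (x ^ (p q r) - 1) (x ^ p - 1) (x ^ q - 1) (x ^ r - 1) /
((x ^ (p q) - 1) (x ^ (p r) - 1) (x ^ (q r) - 1) (x - 1))` -/
def IsPseudocyclotomic (p q r : ℕ) (F : ℤ[X]) : Prop :=
  F * ((X ^ (p * q) - 1) * (X ^ (p * r) - 1) * (X ^ (q * r) - 1) * (X - 1)) =
    (X ^ (p * q * r) - 1) * (X ^ p - 1) * (X ^ q - 1) * (X ^ r - 1)

/-- every coefficient lies in `{-1, 0, 1}` -/
def Flat (F : ℤ[X]) : Prop := ∀ n : ℕ, F.coeff n = -1 ∨ F.coeff n = 0 ∨ F.coeff n = 1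

theorem modEq_one {q p : ℕ} (hp : 2 ≤ p) (h : q % p = 1) : (q : ℤ) ≡ 1 [ZMOD p] := by
  have h2 : q ≡ 1 [MOD p] := by
    unfold Nat.ModEq
    rw [h, Nat.mod_eq_of_lt (by omega)]
  have h3 := (Int.natCast_modEq_iff).2 h2
  simpa using h3

theorem modEq_neg {q p : ℕ} (hp : 2 ≤ p) (h : q % p = p - 1) : (q : ℤ) ≡ -1 [ZMOD p] := by
  have h2 : q + 1 ≡ 0 [MOD p] := by
    unfold Nat.ModEq
    rw [Nat.add_mod, h, Nat.mod_eq_of_lt (show 1 < p by omega), Nat.sub_add_cancel (by omega), Nat.mod_self,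
      Nat.zero_mod]
  have h3 := (Int.natCast_modEq_iff).2 h2
  push_cast at h3
  have h4 := h3.sub_right 1
  simpa using h4

/-- Let `0 < p < q < r` be pairwise coprime and `p ≤ 13`. If the ternary pseudocyclotomic polynomial of `p, q, r` is
flat, then `q ≡ ± 1 (mod p)` or `r ≡ ± 1 (mod p q)`. -/
theorem result : ∀ p q r : ℕ, 0 < p → p ≤ 13 → p < q → q < r → p.Coprime q → p.Coprime r → q.Coprime r →
    ∀ F : ℤ[X], IsPseudocyclotomic p q r F → Flat F →
      ((q : ℤ) ≡ 1 [ZMOD p] ∨ (q : ℤ) ≡ -1 [ZMOD p]) ∨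
        ((r : ℤ) ≡ 1 [ZMOD (p * q)] ∨ (r : ℤ) ≡ -1 [ZMOD (p * q)]) := by
  intro p q r hp hp13 hpq hqr c1 c2 c3 F hF hflat
  by_contra hcon
  push Not at hcon
  obtain ⟨⟨h1, h2⟩, h3, h4⟩ := hcon
  have hp2 : 2 ≤ p := by
    by_contra h
    have : p = 1 := by omega
    apply h1
    rw [this, Int.modEq_iff_dvd]
    simp
  have k1 : q % p ≠ 1 := fun h => h1 (modEq_one hp2 h)
  have k2 : q % p ≠ p - 1 := fun h => h2 (modEq_neg hp2 h)
  have hpq2 : 2 ≤ p * q := by nlinarith
  have k3 : r % (p * q) ≠ 1 := fun h => h3 (by have := modEq_one hpq2 h; push_cast at this; exact this)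
  have k4 : r % (p * q) ≠ p * q - 1 := fun h => h4 (by have := modEq_neg hpq2 h; push_cast at this; exact this)
  have hlt : q % p < p := Nat.mod_lt _ hp
  have hcop : Nat.gcd (q % p) p = 1 := (Nat.gcd_rec p q).symm.trans c1
  have fin : ∀ H : Pool.Agent.H89.FP.Checked p, 5 ≤ p → False := by
    intro H h5
    obtain ⟨n, hn⟩ := Pool.Agent.H89.FP.main_of_checked h5 H hpq hqr c1 c2 c3 hF k1 k2 k3 k4
    rcases hflat n with h | h | h <;> rw [h] at hn <;> norm_num at hn
  have small : p = 2 ∨ p = 3 ∨ p = 4 ∨ p = 6 → False := by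
    intro h
    generalize q % p = s at k1 k2 hlt hcop
    rcases h with rfl | rfl | rfl | rfl
    · interval_cases s <;> simp_all
    · interval_cases s <;> simp_all
    · interval_cases s <;> simp_all
    · interval_cases s <;> simp_all
  have cases : p = 2 ∨ p = 3 ∨ p = 4 ∨ p = 5 ∨ p = 6 ∨ p = 7 ∨ p = 8 ∨ p = 9 ∨ p = 10 ∨ p = 11 ∨ p = 12 ∨
      p = 13 := by omega
  rcases cases with h | h | h | h | h | h | h | h | h | h | h | h
  · exact small (by omega)
  · exact small (by omega)
  · exact small (by omega)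
  · subst h; exact fin Pool.Agent.H89.FP.chk5 (by omega)
  · exact small (by omega)
  · subst h; exact fin Pool.Agent.H89.FP.chk7 (by omega)
  · subst h; exact fin Pool.Agent.H89.FP.chk8 (by omega)
  · subst h; exact fin Pool.Agent.H89.FP.chk9 (by omega)
  · subst h; exact fin Pool.Agent.H89.FP.chk10 (by omega)
  · subst h; exact fin Pool.Agent.H89.FP.chk11 (by omega)
  · subst h; exact fin Pool.Agent.H89.FP.chk12 (by omega)
  · subst h; exact fin Pool.Agent.H89.FP.chk13 (by omega)

end Pool.Agent.Results.MP_fd220b_nt.SmallP
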